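import Pool.Agent.N864.RQ.Abs
import Pool.Agent.H920R2.We3

/-!
# Resolution of quotients by automorphisms of order `p`: the criterion
-/

set_option autoImplicit false
set_option linter.unusedSectionVars false
set_option linter.unusedVariables false

open AlgebraicGeometry CategoryTheory Pool.Agent.H920R2

universe u v

namespace Pool.Agent.N864.RQ

section ops

variable {k L : Type u} [Field k] [Field L] [Algebra k L] (τ : L ≃ₐ[k] L)
  (R : Subalgebra k (LP L)) (hst : ∀ f ∈ R, tl τ f ∈ R)

/-- The automorphism of the graded algebra. -/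
noncomputable def TT (hst : ∀ f ∈ R, tl τ f ∈ R) : R →+* R where
  toFun x := ⟨tl τ x, hst _ x.2⟩
  map_one' := Subtype.ext (map_one (tl τ))
  map_mul' x y := Subtype.ext (map_mul (tl τ) x.1 y.1)
  map_zero' := Subtype.ext (map_zero (tl τ))
  map_add' x y := Subtype.ext (map_add (tl τ) x.1 y.1)

lemma coe_TT (x : R) : ((TT τ R hst x : R) : LP L) = tl τ x := rfl

lemma coe_TT_iter (n : ℕ) (x : R) : (((TT τ R hst)^[n] x : R) : LP L) = (tl τ)^[n] x := by
  induction n with
  | zero => rfl
  | succ n ih => rw [Function.iterate_succ_apply', Function.iterate_succ_apply', ← ih]; rfl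

/-- Homogeneous elements. -/
def HH (d : ℤ) (x : R) : Prop := ∃ a : L, (x : LP L) = hm d a

lemma gd_TT (hgr : Gr R) : Gd (TT τ R hst) (HH R) where
  mul := by
    rintro d e x y ⟨a, ha⟩ ⟨b, hb⟩
    exact ⟨a * b, by rw [MulMemClass.coe_mul, ha, hb, hm_mul]⟩
  add := by
    rintro d x y ⟨a, ha⟩ ⟨b, hb⟩
    exact ⟨a + b, by rw [AddMemClass.coe_add, ha, hb, hm_add]⟩
  zero := fun d => ⟨0, by rw [hm_zero]; rfl⟩
  one := ⟨1, by rw [hm_one]; rfl⟩
  map := by
    rintro d x ⟨a, ha⟩
    exact ⟨τ a, by rw [coe_TT, ha, tl_hm]⟩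
  gen := by
    intro x
    have h1 : x = ∑ e ∈ ((x : LP L).coeff.support).attach,
        (⟨hm e ((x : LP L).coeff e), hgr x x.2 e⟩ : R) := by
      apply Subtype.ext
      rw [AddSubmonoidClass.coe_finsetSum]
      change (x : LP L) = ∑ e ∈ (x : LP L).coeff.support.attach, hm (e : ℤ) ((x : LP L).coeff e)
      rw [Finset.sum_attach (x : LP L).coeff.support (fun e => hm e ((x : LP L).coeff e)),
        ← eq_sum_hm]
    rw [h1]
    exact AddSubmonoid.sum_mem _ fun e _ => AddSubmonoid.subset_closure ⟨_, _, rfl⟩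

end ops

section main

variable {k B : Type u} [Field k] [CommRing B] [IsDomain B] [Algebra k B]

/-- **Criterion.** -/
theorem hasResolution_gs {p : ℕ} (hp : p.Prime) (hpk : (p : k) = 0) (σ : B ≃ₐ[k] B)
    (hσ : ∀ b, σ^[p] b = b) (τ : FractionRing B ≃ₐ[k] FractionRing B)
    (hτ : ∀ b, τ (algebraMap B (FractionRing B) b) = algebraMap B (FractionRing B) (σ b))
    (R : Subalgebra k (LP (FractionRing B))) (hgr : Gr R) (hs : hm (-1) 1 ∈ R)
    (hb : ∀ b : B, hm 0 (algebraMap B (FractionRing B) b) ∈ R)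
    (hc : ∀ f ∈ R, ∀ d, ∃ b : B, f.coeff d = algebraMap B (FractionRing B) b)
    (hft : Algebra.FiniteType k R) (hpos : ∃ (d : ℕ) (a : FractionRing B), 0 < d ∧ a ≠ 0 ∧ hm d a ∈ R)
    (hst : ∀ f ∈ R, tl τ f ∈ R)
    (hsm : ∀ (d : ℕ) (a : FractionRing B) (h : hm d a ∈ R), 0 < d → a ≠ 0 →
      Algebra.Smooth k (loc R (hm d a) h))
    (hyp : ∀ Q : Ideal R, Q.IsPrime →
      (∀ d x, HH R d x → x ∈ Q → TT τ R hst x ∈ Q) → (∀ f, TT τ R hst f - f ∈ Q) →
      (∃ d : ℕ, 0 < d ∧ ∃ y, HH R d y ∧ y ∉ Q) → ∃ x ∈ GS (TT τ R hst) (HH R) p, x ∉ Q) :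
    HasResolution (X := Spec (CommRingCat.of (fixedAlg σ)))
      (Spec.map (CommRingCat.ofHom (algebraMap k (fixedAlg σ)))) := by
  classical
  let L := FractionRing B
  let gB : B →ₐ[k] L := IsScalarTower.toAlgHom k B L
  have hgB : ∀ b, gB b = algebraMap B L b := fun b => rfl
  have hinj : Function.Injective gB := IsFractionRing.injective B L
  have hτ' : ∀ b, τ (gB b) = gB (σ b) := hτ
  have hτp : ∀ x, τ^[p] x = x := by
    intro x
    obtain ⟨a, c, -, rfl⟩ := IsFractionRing.div_surjective (A := B) x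
    have h3 : ∀ (m : ℕ) (y z : L), τ^[m] (y / z) = τ^[m] y / τ^[m] z := by
      intro m
      induction m with
      | zero => intro y z; rfl
      | succ m ih => intro y z; rw [Function.iterate_succ_apply, map_div₀, ih,
          Function.iterate_succ_apply, Function.iterate_succ_apply]
    have h4 : ∀ y : B, τ^[p] (algebraMap B L y) = algebraMap B L y := by
      intro y
      have h5 := tau_iter gB σ τ hτ' p y
      rw [hσ] at h5
      exact h5
    rw [h3, h4, h4]
  have hRn : IsNoetherianRing R := Algebra.FiniteType.isNoetherianRing k R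
  have hpR : (p : R) = 0 := by
    rw [← map_natCast (algebraMap k R), hpk, map_zero]
  have hTT : ∀ x : R, (TT τ R hst)^[p] x = x := by
    intro x
    apply Subtype.ext
    rw [coe_TT_iter]
    exact tl_iter_id τ p hτp _
  have hgd := gd_TT τ R hst hgr
  have hSrad := fun (Q : Ideal R) (hQ : Q.IsPrime) (h : GS (TT τ R hst) (HH R) p ⊆ Q) =>
    rad_abs hp hpR hTT hgd Q hQ h (hyp Q hQ)
  set S := GS (TT τ R hst) (HH R) p with hS
  have hfg : (Ideal.span S).FG := IsNoetherian.noetherian _
  obtain ⟨T0, hT0S, hT0⟩ := (Submodule.fg_span_iff_fg_span_finset_subset S).1 hfg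
  let T := {x // x ∈ T0}
  choose e he0 hxH hx0 hTx b hb1 hb2 using fun t : T => hT0S t.2
  choose η hxeq using hxH
  have hη0 : ∀ t, η t ≠ 0 := by
    intro t h0
    apply hx0 t
    apply Subtype.ext
    rw [hxeq t, h0, hm_zero]
    rfl
  have hτη : ∀ t, τ (η t) = η t := by
    intro t
    have h1 := congrArg (fun x : R => (x : LP L)) (hTx t)
    change tl τ ((t.1 : R) : LP L) = ((t.1 : R) : LP L) at h1
    rw [hxeq t, tl_hm] at h1
    exact hm_inj h1
  have he : ∀ t, hm (e t) (η t) ∈ R := fun t => by rw [← hxeq t]; exact t.1.2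
  let F := fixedAlg (tl τ)
  have hint := isIntegral_fixedAlg σ p hp.pos hσ
  have hcov : Cover (gA gB σ) gB R F e η he := by
    refine
      { inj := hinj.comp Subtype.val_injective
        grR := hgr
        grF := gr_fixed τ
        sR := hs
        sF := ?_
        bR := hb
        cR := hc
        gF := ?_
        gAB := fun a => ⟨a, rfl⟩
        gBA := ?_
        invF := ?_
        int := ?_
        epos := he0
        η0 := hη0
        hF := ?_
        sm := ?_
        ft := hft
        pos := hpos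
        rad := ?_ }
    · change _ ∈ fixedAlg (tl τ)
      rw [mem_fixedAlg, tl_hm, map_one]
    · intro a
      change _ ∈ fixedAlg (tl τ)
      rw [mem_fixedAlg, tl_hm]
      change hm 0 (τ (gB a.1)) = hm 0 (gB a.1)
      rw [hτ', mem_fixedAlg.1 a.2]
    · intro b hb
      change _ ∈ fixedAlg (tl τ) at hb
      rw [mem_fixedAlg, tl_hm] at hb
      refine ⟨⟨b, ?_⟩, rfl⟩
      rw [mem_fixedAlg]
      apply hinj
      rw [← hτ']
      exact hm_inj hb
    · intro d a h
      change _ ∈ fixedAlg (tl τ) at h ⊢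
      rw [mem_fixedAlg, tl_hm] at h ⊢
      rw [map_inv₀, hm_inj h]
    · intro V hVA b
      obtain ⟨P, hP, hP0⟩ := hint.isIntegral b
      have hb : IsIntegral V (gB b) := by
        let φ : fixedAlg σ →+* V := (gA gB σ).toRingHom.codRestrict V.toSubring hVA
        refine ⟨P.map φ, hP.map φ, ?_⟩
        rw [Polynomial.eval₂_map]
        have h1 := congrArg gB hP0
        rw [map_zero, ← AlgHom.coe_toRingHom, Polynomial.hom_eval₂] at h1
        exact h1
      obtain ⟨y, hy⟩ := (IsIntegrallyClosedIn.algebraMap_eq_of_integral (R := V) (A := L) hb)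
      rw [← hy]
      exact y.2
    · intro t
      change _ ∈ fixedAlg (tl τ)
      rw [mem_fixedAlg, tl_hm, hτη t]
    · intro t
      set h0 : LP L := hm (e t) (η t) with hh0
      have hτh : tl τ h0 = h0 := by rw [hh0, tl_hm, hτη t]
      let R' := loc R h0 (he t)
      obtain ⟨z, hz⟩ := (isUnit_hm (d := (e t : ℤ)) (hη0 t)).exists_right_inv
      have hzR : z ∈ R' := inv_mem_loc _ _ _ _ hz
      have hbR : (b t : LP L) ∈ R' := le_loc _ _ _ (b t).2
      have hstab : ∀ x ∈ R', tl τ x ∈ R' := by
        rintro x ⟨n, hn⟩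
        refine ⟨n, ?_⟩
        have h1 := hst _ hn
        rw [map_mul, map_pow, hτh] at h1
        exact h1
      refine smooth_fixed_LP τ p hp.pos hτp R' hstab (b t : LP L) hbR
        ?_ ?_ (hsm _ _ (he t) (he0 t) (hη0 t))
      · rintro c ⟨n, hn⟩
        obtain ⟨w, hw⟩ := hb1 t ⟨_, hn⟩
        have h1 := congrArg (fun x : R => (x : LP L)) hw
        change ((t.1 : R) : LP L) * (tl τ (h0 ^ n * c) - h0 ^ n * c) =
          (tl τ (b t : LP L) - (b t : LP L)) * (w : LP L) at h1
        rw [hxeq t, map_mul, map_pow, hτh] at h1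
        refine ⟨(w : LP L) * z ^ (n + 1), R'.mul_mem (le_loc _ _ _ w.2) (R'.pow_mem hzR _), ?_⟩
        have hzn : h0 ^ (n + 1) * z ^ (n + 1) = 1 := by rw [← mul_pow, hz, one_pow]
        have h2 : tl τ c - c = (h0 ^ (n + 1) * z ^ (n + 1)) * (tl τ c - c) := by
          rw [hzn, one_mul]
        rw [h2]
        rw [← hh0] at h1
        linear_combination z ^ (n + 1) * h1
      · intro j hj hjp
        obtain ⟨hne, w, hw⟩ := hb2 t j hj hjp
        constructor
        · intro h
          apply hne
          apply Subtype.ext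
          rw [coe_TT_iter]
          exact h
        · have h1 := congrArg (fun x : R => (x : LP L)) hw
          change ((t.1 : R) : LP L) * (tl τ (b t : LP L) - (b t : LP L)) =
            ((((TT τ R hst)^[j] (b t) : R) : LP L) - (b t : LP L)) * (w : LP L) at h1
          rw [hxeq t, coe_TT_iter, ← hh0] at h1
          refine ⟨(w : LP L) * z, R'.mul_mem (le_loc _ _ _ w.2) hzR, ?_⟩
          have h2 : tl τ (b t : LP L) - (b t : LP L) =
              (h0 * z) * (tl τ (b t : LP L) - (b t : LP L)) := by rw [hz, one_mul]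
          rw [h2]
          linear_combination z * h1
    · intro d a h hd
      have h1 : (⟨hm d a, h⟩ : R) ∈ (Ideal.span (Set.range fun t : T =>
          (⟨hm (e t) (η t), he t⟩ : R))).radical := by
        rw [Ideal.radical_eq_sInf, Ideal.mem_sInf]
        rintro Q ⟨hle, hQ⟩
        refine hSrad Q hQ ?_ d hd _ ⟨a, rfl⟩
        intro x hx
        have h2 : x ∈ Submodule.span R (T0 : Set R) := by
          rw [← hT0]
          exact Submodule.subset_span hx
        have h3 : Submodule.span R (T0 : Set R) ≤ Q := by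
          rw [Submodule.span_le]
          intro z hz
          apply hle
          refine Ideal.subset_span ⟨⟨z, hz⟩, ?_⟩
          exact Subtype.ext (hxeq ⟨z, hz⟩).symm
        exact h3 h2
      obtain ⟨N, hN⟩ := h1
      exact ⟨N, hN⟩
  exact hasResolution_of_cover hcov

end main

end Pool.Agent.N864.RQ
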