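import Mathlib

/-!
# Graded rings with an automorphism of order `p`: the radical condition
-/

set_option autoImplicit false
set_option linter.unusedSectionVars false
set_option linter.unusedVariables false

namespace Pool.Agent.N864.RQ

variable {R : Type*} [CommRing R] [IsDomain R]

/-- The norm. -/
def Nm (T : R →+* R) (p : ℕ) (y : R) : R := ∏ i ∈ Finset.range p, T^[i] y

/-- Homogeneous elements, abstractly. -/
structure Gd (T : R →+* R) (H : ℤ → R → Prop) : Prop where
  mul : ∀ d e x y, H d x → H e y → H (d + e) (x * y)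
  add : ∀ d x y, H d x → H d y → H d (x + y)
  zero : ∀ d, H d 0
  one : H 0 1
  map : ∀ d x, H d x → H d (T x)
  gen : ∀ x : R, x ∈ AddSubmonoid.closure {y | ∃ d, H d y}

variable {T : R →+* R} {H : ℤ → R → Prop} {p : ℕ}

lemma Gd.iter (h : Gd T H) {d : ℤ} {x : R} (hx : H d x) (n : ℕ) : H d (T^[n] x) := by
  induction n with
  | zero => exact hx
  | succ n ih => rw [Function.iterate_succ_apply']; exact h.map _ _ ih

lemma Gd.pow (h : Gd T H) {d : ℤ} {x : R} (hx : H d x) (n : ℕ) : H (n * d) (x ^ n) := by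
  induction n with
  | zero => rw [pow_zero, Nat.cast_zero, zero_mul]; exact h.one
  | succ n ih =>
    rw [pow_succ]
    have := h.mul _ _ _ _ ih hx
    have e : (((n + 1 : ℕ) : ℤ)) * d = n * d + d := by push_cast; ring
    rw [e]
    exact this

lemma Gd.prod (h : Gd T H) {ι : Type*} (s : Finset ι) (d : ι → ℤ) (x : ι → R)
    (hx : ∀ i ∈ s, H (d i) (x i)) : H (∑ i ∈ s, d i) (∏ i ∈ s, x i) := by
  classical
  induction s using Finset.induction_on with
  | empty => simp only [Finset.sum_empty, Finset.prod_empty]; exact h.one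
  | insert i s hi ih =>
    rw [Finset.sum_insert hi, Finset.prod_insert hi]
    exact h.mul _ _ _ _ (hx i (Finset.mem_insert_self i s))
      (ih fun j hj => hx j (Finset.mem_insert_of_mem hj))

lemma Gd.sum (h : Gd T H) {ι : Type*} (s : Finset ι) (d : ℤ) (x : ι → R)
    (hx : ∀ i ∈ s, H d (x i)) : H d (∑ i ∈ s, x i) := by
  classical
  induction s using Finset.induction_on with
  | empty => simp only [Finset.sum_empty]; exact h.zero _
  | insert i s hi ih =>
    rw [Finset.sum_insert hi]
    exact h.add _ _ _ (hx i (Finset.mem_insert_self i s))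
      (ih fun j hj => hx j (Finset.mem_insert_of_mem hj))

lemma Gd.natMul (h : Gd T H) {d : ℤ} {x : R} (hx : H d x) (n : ℕ) : H d (n * x) := by
  induction n with
  | zero => rw [Nat.cast_zero, zero_mul]; exact h.zero _
  | succ n ih =>
    have e : ((n + 1 : ℕ) : R) * x = n * x + x := by push_cast; ring
    rw [e]
    exact h.add _ _ _ ih hx

lemma Gd.neg (h : Gd T H) (hp : p.Prime) (hpR : (p : R) = 0) {d : ℤ} {x : R} (hx : H d x) :
    H d (-x) := by
  obtain ⟨n, hn⟩ : ∃ n, p = n + 1 := ⟨p - 1, by have := hp.pos; omega⟩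
  have e : -x = n * x := by
    rw [hn] at hpR
    push_cast at hpR
    linear_combination -x * hpR
  rw [e]
  exact h.natMul hx n

lemma Gd.nm (h : Gd T H) {d : ℤ} {x : R} (hx : H d x) : H (p * d) (Nm T p x) := by
  have h1 := h.prod (Finset.range p) (fun _ => d) (fun i => T^[i] x) fun i _ => h.iter hx i
  rw [Finset.sum_const, Finset.card_range, nsmul_eq_mul] at h1
  exact h1

lemma T_iter_mul (n : ℕ) (x y : R) : T^[n] (x * y) = T^[n] x * T^[n] y := by
  induction n with
  | zero => rfl
  | succ n ih => rw [Function.iterate_succ_apply', ih, map_mul, Function.iterate_succ_apply',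
      Function.iterate_succ_apply']

lemma T_iter_sub (n : ℕ) (x y : R) : T^[n] (x - y) = T^[n] x - T^[n] y := by
  induction n with
  | zero => rfl
  | succ n ih => rw [Function.iterate_succ_apply', ih, map_sub, Function.iterate_succ_apply',
      Function.iterate_succ_apply']

lemma T_iter_sum {ι : Type*} (s : Finset ι) (n : ℕ) (x : ι → R) :
    T^[n] (∑ i ∈ s, x i) = ∑ i ∈ s, T^[n] (x i) := by
  induction n with
  | zero => rfl
  | succ n ih =>
    rw [Function.iterate_succ_apply', ih, map_sum]
    exact Finset.sum_congr rfl fun i _ => (Function.iterate_succ_apply' _ _ _).symm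

lemma T_nm (hp : p.Prime) (hT : ∀ x, T^[p] x = x) (y : R) : T (Nm T p y) = Nm T p y := by
  by_cases hy : y = 0
  · subst hy
    unfold Nm
    obtain ⟨n, hn⟩ : ∃ n, p = n + 1 := ⟨p - 1, by have := hp.pos; omega⟩
    rw [hn, Finset.prod_range_succ']
    simp
  · obtain ⟨n, hn⟩ : ∃ n, p = n + 1 := ⟨p - 1, by have := hp.pos; omega⟩
    have h1 : T (Nm T p y) = ∏ i ∈ Finset.range p, T^[i + 1] y := by
      unfold Nm
      rw [map_prod]
      exact Finset.prod_congr rfl fun i _ => (Function.iterate_succ_apply' _ _ _).symm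
    rw [h1]
    unfold Nm
    have h2 := Finset.prod_range_succ (fun i => T^[i] y) p
    have h3 := Finset.prod_range_succ' (fun i => T^[i] y) p
    rw [h3, hT, Function.iterate_zero, id_eq] at h2
    exact mul_right_cancel₀ hy h2

lemma dvd_nm (hp : p.Prime) (y : R) : y ∣ Nm T p y := by
  have h0 := Finset.dvd_prod_of_mem (fun i => T^[i] y) (Finset.mem_range.2 hp.pos)
  rw [Function.iterate_zero, id_eq] at h0
  exact h0

/-- The good elements. -/
def GS (T : R →+* R) (H : ℤ → R → Prop) (p : ℕ) : Set R :=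
  {x | ∃ e : ℕ, 0 < e ∧ H e x ∧ x ≠ 0 ∧ T x = x ∧ ∃ b : R, (∀ f, (T b - b) ∣ x * (T f - f)) ∧
    ∀ j, 0 < j → j < p → T^[j] b ≠ b ∧ (T^[j] b - b) ∣ x * (T b - b)}

lemma per (hT : ∀ x, T^[p] x = x) (u j : ℕ) (x : R) : T^[p * u + j] x = T^[j] x := by
  rw [Function.iterate_add_apply, Function.iterate_mul]
  exact Function.iterate_fixed (hT _) u

lemma exists_mul_one (hp : p.Prime) {j : ℕ} (hj : 0 < j) (hjp : j < p) :
    ∃ t u, j * t = p * u + 1 := by
  have hco : Nat.Coprime j p := (Nat.coprime_of_lt_prime (by omega) hjp hp).symm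
  obtain ⟨t, -, ht⟩ := Nat.exists_mul_mod_eq_one_of_coprime hco hp.one_lt
  refine ⟨t, j * t / p, ?_⟩
  have := Nat.div_add_mod (j * t) p
  omega

lemma cast_not_mem (hp : p.Prime) (hpR : (p : R) = 0) (Q : Ideal R) (hQ : Q.IsPrime) {j : ℕ}
    (hj : 0 < j) (hjp : j < p) : (j : R) ∉ Q := by
  intro h
  obtain ⟨t, u, htu⟩ := exists_mul_one hp hj hjp
  have h1 : (j : R) * t = 1 := by
    have := congrArg (fun n : ℕ => (n : R)) htu
    push_cast at this
    rw [this, hpR]
    ring
  exact hQ.ne_top ((Ideal.eq_top_iff_one Q).2 (h1 ▸ Q.mul_mem_right _ h))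

section stable

variable (hp : p.Prime) (hT : ∀ x, T^[p] x = x) (h : Gd T H) (Q : Ideal R) (hQ : Q.IsPrime)
  (hst : ∀ d x, H d x → x ∈ Q → T x ∈ Q)

include h hst in
lemma st_iter {d : ℤ} {x : R} (hx : H d x) (hxQ : x ∈ Q) (n : ℕ) : T^[n] x ∈ Q := by
  induction n with
  | zero => exact hxQ
  | succ n ih => rw [Function.iterate_succ_apply']; exact hst _ _ (h.iter hx n) ih

include h hst hp hT in
lemma st_back {d : ℤ} {x : R} (hx : H d x) {n : ℕ} (hn : T^[n] x ∈ Q) : x ∈ Q := by
  have h1 := st_iter h Q hst (h.iter hx n) hn (n * (p - 1))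
  rw [← Function.iterate_add_apply] at h1
  have h2 : n * (p - 1) + n = p * n + 0 := by
    obtain ⟨r, hr⟩ : ∃ r, p = r + 1 := ⟨p - 1, by have := hp.pos; omega⟩
    rw [hr, Nat.add_sub_cancel]; ring
  rw [h2, per hT] at h1
  exact h1

include h hst hp hT hQ in
lemma nm_not_mem {d : ℤ} {x : R} (hx : H d x) (hxQ : x ∉ Q) : Nm T p x ∉ Q := by
  intro h1
  obtain ⟨i, -, h2⟩ := hQ.prod_mem_iff.1 h1
  exact hxQ (st_back hp hT h Q hst hx h2)

include h hst hp hT in
lemma diff_not_mem (hpR : (p : R) = 0) {d : ℤ} {b : R} (hb : H d b) (h1 : T b - b ∉ Q) {j : ℕ}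
    (hj : 0 < j) (hjp : j < p) : T^[j] b - b ∉ Q := by
  intro hP
  apply h1
  obtain ⟨t, u, htu⟩ := exists_mul_one hp hj hjp
  have hHd : ∀ j, H d (T^[j] b - b) := fun j => by
    rw [sub_eq_add_neg]
    exact h.add _ _ _ (h.iter hb j) (h.neg hp hpR hb)
  have hall : ∀ t, T^[j * t] b - b ∈ Q := by
    intro t
    induction t with
    | zero => rw [mul_zero, Function.iterate_zero, id_eq, sub_self]; exact Q.zero_mem
    | succ t ih =>
      have e1 : T^[j * (t + 1)] b - b = (T^[j] b - b) + T^[j] (T^[j * t] b - b) := by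
        rw [T_iter_sub, ← Function.iterate_add_apply]
        have : j + j * t = j * (t + 1) := by ring
        rw [this]
        ring
      rw [e1]
      exact Q.add_mem hP (st_iter h Q hst (hHd _) ih j)
  have h2 := hall t
  rw [htu, per hT] at h2
  exact h2

end stable

/-- The radical condition. -/
theorem rad_abs (hp : p.Prime) (hpR : (p : R) = 0) (hT : ∀ x, T^[p] x = x) (h : Gd T H)
    (Q : Ideal R) (hQ : Q.IsPrime) (hGS : GS T H p ⊆ Q)
    (hyp : (∀ d x, H d x → x ∈ Q → T x ∈ Q) → (∀ f, T f - f ∈ Q) →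
      (∃ d : ℕ, 0 < d ∧ ∃ y, H d y ∧ y ∉ Q) → ∃ x ∈ GS T H p, x ∉ Q)
    (d : ℕ) (hd : 0 < d) (y : R) (hy : H d y) : y ∈ Q := by
  classical
  by_contra hyQ
  by_cases hst : ∀ d x, H d x → x ∈ Q → T x ∈ Q
  · by_cases hall : ∀ f, T f - f ∈ Q
    · obtain ⟨x, hx, hxQ⟩ := hyp hst hall ⟨d, hd, y, hy, hyQ⟩
      exact hxQ (hGS hx)
    · -- a homogeneous element with a difference outside of `Q`
      have hex : ∃ (d' : ℤ) (b : R), H d' b ∧ T b - b ∉ Q := by
        by_contra hcon
        push Not at hcon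
        apply hall
        intro f
        have h1 := h.gen f
        induction h1 using AddSubmonoid.closure_induction with
        | mem x hx =>
          obtain ⟨e, he⟩ := hx
          exact hcon e x he
        | zero => rw [map_zero, sub_self]; exact Q.zero_mem
        | add x y _ _ hx hy =>
          have : T (x + y) - (x + y) = (T x - x) + (T y - y) := by rw [map_add]; ring
          rw [this]
          exact Q.add_mem hx hy
      obtain ⟨d', b, hb, hbQ⟩ := hex
      have hHd : ∀ j, H d' (T^[j] b - b) := fun j => by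
        rw [sub_eq_add_neg]
        exact h.add _ _ _ (h.iter hb j) (h.neg hp hpR hb)
      have hne : ∀ j, 0 < j → j < p → T^[j] b - b ∉ Q := fun j hj hjp =>
        diff_not_mem hp hT h Q hst hpR hb hbQ hj hjp
      set m : ℕ := p * d'.natAbs + 1 with hm
      set x : R := Nm T p y ^ m * ∏ j ∈ Finset.Ico 1 p, Nm T p (T^[j] b - b) with hx
      have hxQ : x ∉ Q := by
        intro h1
        rcases hQ.mem_or_mem h1 with h2 | h2
        · exact nm_not_mem hp hT h Q hQ hst hy hyQ (hQ.mem_of_pow_mem _ h2)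
        · obtain ⟨j, hj, h3⟩ := hQ.prod_mem_iff.1 h2
          rw [Finset.mem_Ico] at hj
          exact nm_not_mem hp hT h Q hQ hst (hHd j) (hne j hj.1 hj.2) h3
      have hdeg : H (m * (p * d) + ∑ j ∈ Finset.Ico 1 p, (p * d' : ℤ)) x :=
        h.mul _ _ _ _ (h.pow (h.nm hy) m) (h.prod _ _ _ fun j _ => h.nm (hHd j))
      rw [Finset.sum_const, Nat.card_Ico, nsmul_eq_mul] at hdeg
      have hpos : 0 < (m * (p * d) + (p - 1 : ℕ) * (p * d') : ℤ) := by
        have h1 : -((d'.natAbs : ℤ)) ≤ d' := by omega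
        have h3 : (1 : ℤ) ≤ d := by exact_mod_cast hd
        have h4 : (1 : ℤ) ≤ p := by exact_mod_cast hp.pos
        have h5 : ((p - 1 : ℕ) : ℤ) = p - 1 := by
          rw [Nat.cast_sub hp.pos]; rfl
        rw [h5, hm]
        push_cast
        have e0 : (0 : ℤ) ≤ p * d'.natAbs := by positivity
        have e1 : (0 : ℤ) ≤ (p * d'.natAbs + 1) * p * (d - 1) :=
          mul_nonneg (mul_nonneg (by omega) (by omega)) (by omega)
        have e2 : (0 : ℤ) ≤ (p - 1) * p * (d' + d'.natAbs) :=
          mul_nonneg (mul_nonneg (by omega) (by omega)) (by omega)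
        have e3 : ((p * d'.natAbs + 1) * (p * d) + (p - 1) * (p * d') : ℤ) =
            (p * d'.natAbs + 1) * p * (d - 1) + (p - 1) * p * (d' + d'.natAbs) +
              p * d'.natAbs + p := by ring
        have e4 : ((d'.natAbs : ℕ) : ℤ) = |d'| := Int.natCast_natAbs d'
        rw [e4] at e0 e1 e2 e3
        rw [e3]
        omega
      obtain ⟨E, hE⟩ := Int.eq_ofNat_of_zero_le hpos.le
      have hE0 : 0 < E := by
        have : (0 : ℤ) < E := by rw [← hE]; exact hpos
        exact_mod_cast this
      rw [hE] at hdeg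
      apply hxQ
      apply hGS
      have hdvd : ∀ j, 0 < j → j < p → (T^[j] b - b) ∣ x := by
        intro j hj hjp
        have h2 : Nm T p (T^[j] b - b) ∣ ∏ j ∈ Finset.Ico 1 p, Nm T p (T^[j] b - b) :=
          Finset.dvd_prod_of_mem (fun j => Nm T p (T^[j] b - b)) (Finset.mem_Ico.2 ⟨hj, hjp⟩)
        exact ((dvd_nm hp _).trans h2).trans (Dvd.intro_left _ rfl)
      refine ⟨E, hE0, hdeg, fun h0 => hxQ (h0 ▸ Q.zero_mem), ?_, b, ?_, ?_⟩
      · rw [hx, map_mul, map_pow, T_nm hp hT, map_prod]
        congr 1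
        exact Finset.prod_congr rfl fun j _ => T_nm hp hT _
      · intro f
        have := hdvd 1 one_pos hp.one_lt
        rw [Function.iterate_one] at this
        exact this.mul_right _
      · intro j hj hjp
        exact ⟨fun h0 => hne j hj hjp (by rw [h0, sub_self]; exact Q.zero_mem),
          (hdvd j hj hjp).mul_right _⟩
  · push Not at hst
    obtain ⟨d₀, α, hα, hαQ, hαQ'⟩ := hst
    have h1 : ∀ m, 0 < m → m < p → ∃ (e : ℤ) (x : R), H e x ∧ T^[m] x ∈ Q ∧ x ∉ Q := by
      intro m hm hmp
      by_contra hcon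
      push Not at hcon
      have h2 : ∀ (t : ℕ) (e : ℤ) x, H e x → T^[m * t] x ∈ Q → x ∈ Q := by
        intro t
        induction t with
        | zero => intro e x _ h; exact h
        | succ t ih =>
          intro e x hx hxQ
          apply hcon e x hx
          apply ih e _ (h.iter hx m)
          rw [← Function.iterate_add_apply]
          rw [Nat.mul_succ] at hxQ
          exact hxQ
      obtain ⟨t, w, htw⟩ := exists_mul_one hp hm hmp
      have h3 : m * (t * (p - 1)) + 1 = p * (w * (p - 1) + 1) + 0 := by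
        obtain ⟨r, hr⟩ : ∃ r, p = r + 1 := ⟨p - 1, by have := hp.pos; omega⟩
        have h7 : p - 1 = r := by omega
        have h6 : m * (t * (p - 1)) = (m * t) * (p - 1) := by ring
        rw [h6, htw, h7, hr]; ring
      apply hαQ'
      apply h2 (t * (p - 1)) d₀ _ (h.map _ _ hα)
      rw [← Function.iterate_succ_apply]
      change T^[m * (t * (p - 1)) + 1] α ∈ Q
      rw [h3, per hT]
      exact hαQ
    choose! e x hHx hx hx' using h1
    set P0 : R := ∏ m ∈ Finset.Ico 1 p, x m with hP0
    set D : ℤ := ∑ m ∈ Finset.Ico 1 p, e m with hD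
    have hHP0 : H D P0 := h.prod _ _ _ fun m hm => by
      rw [Finset.mem_Ico] at hm
      exact hHx m hm.1 hm.2
    have hP0Q : P0 ∉ Q := by
      intro h3
      obtain ⟨m, hm, h4⟩ := hQ.prod_mem_iff.1 h3
      rw [Finset.mem_Ico] at hm
      exact hx' m hm.1 hm.2 h4
    have hP0m : ∀ m, 0 < m → m < p → T^[m] P0 ∈ Q := by
      intro m hm hmp
      have h3 : x m ∣ P0 := Finset.dvd_prod_of_mem x (Finset.mem_Ico.2 ⟨hm, hmp⟩)
      obtain ⟨c, hc⟩ := h3
      rw [hc, T_iter_mul]
      exact Q.mul_mem_right _ (hx m hm hmp)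
    set M : ℕ := D.natAbs + 1 with hM
    set ε : R := P0 * y ^ M with hε
    have hHε : H (D + M * d) ε := h.mul _ _ _ _ hHP0 (h.pow hy M)
    have hεQ : ε ∉ Q := by
      intro h3
      rcases hQ.mem_or_mem h3 with h4 | h4
      · exact hP0Q h4
      · exact hyQ (hQ.mem_of_pow_mem _ h4)
    have hεm : ∀ m, 0 < m → m < p → T^[m] ε ∈ Q := by
      intro m hm hmp
      rw [hε, T_iter_mul]
      exact Q.mul_mem_right _ (hP0m m hm hmp)
    have hpos : 0 < D + M * d := by
      have h3 : (1 : ℤ) ≤ d := by exact_mod_cast hd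
      have h4 : (M : ℤ) = |D| + 1 := by rw [hM]; push_cast; rfl
      have h5 : -|D| ≤ D := neg_abs_le D
      have h6 : (M : ℤ) * 1 ≤ M * d := mul_le_mul_of_nonneg_left h3 (by positivity)
      omega
    obtain ⟨E, hE⟩ := Int.eq_ofNat_of_zero_le hpos.le
    have hE0 : 0 < E := by
      have : (0 : ℤ) < E := by rw [← hE]; exact hpos
      exact_mod_cast this
    rw [hE] at hHε
    set tr : R := ∑ i ∈ Finset.range p, T^[i] ε with htr
    set wt : R := ∑ i ∈ Finset.range p, (i : R) * T^[i] ε with hwt
    obtain ⟨n, hn⟩ : ∃ n, p = n + 1 := ⟨p - 1, by have := hp.pos; omega⟩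
    have hTs : ∀ i, T (T^[i] ε) = T^[i + 1] ε := fun i => (Function.iterate_succ_apply' T i ε).symm
    have hTtr : T tr = tr := by
      rw [htr, map_sum]
      simp_rw [hTs]
      rw [hn, Finset.sum_range_succ, Finset.sum_range_succ' (fun i => T^[i] ε), ← hn, hT]
      rfl
    have hTwt : T wt = wt - tr := by
      have h0 : wt - tr = ∑ i ∈ Finset.range p, ((i : R) - 1) * T^[i] ε := by
        rw [hwt, htr, ← Finset.sum_sub_distrib]
        refine Finset.sum_congr rfl fun i _ => ?_
        ring
      have h1 : T wt = ∑ i ∈ Finset.range p, (i : R) * T^[i + 1] ε := by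
        rw [hwt, map_sum]
        refine Finset.sum_congr rfl fun i _ => ?_
        rw [map_mul, map_natCast, hTs]
      rw [h0, h1, hn, Finset.sum_range_succ, Finset.sum_range_succ'
        (fun i => ((i : R) - 1) * T^[i] ε), ← hn, hT]
      have h2 : ((n : ℕ) : R) = -1 := by
        rw [hn] at hpR
        push_cast at hpR
        linear_combination hpR
      rw [h2]
      simp
    have hTj : ∀ j, T^[j] wt - wt = -(j * tr) := by
      intro j
      induction j with
      | zero => simp
      | succ j ih =>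
        rw [Function.iterate_succ_apply']
        have h1 := congrArg T ih
        rw [map_sub, map_neg, map_mul, map_natCast, hTtr, hTwt] at h1
        push_cast
        linear_combination h1
    have htrQ : tr ∉ Q := by
      intro h3
      rw [htr, hn, Finset.sum_range_succ'] at h3
      apply hεQ
      refine (Q.add_mem_iff_right ?_).1 h3
      refine Q.sum_mem fun i hi => ?_
      rw [Finset.mem_range] at hi
      exact hεm (i + 1) (by omega) (by omega)
    apply htrQ
    apply hGS
    have htr0 : tr ≠ 0 := fun h0 => htrQ (h0 ▸ Q.zero_mem)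
    have hcast : ∀ j, 0 < j → j < p → ∃ t : R, (j : R) * t = 1 := by
      intro j hj hjp
      obtain ⟨t, u, htu⟩ := exists_mul_one hp hj hjp
      refine ⟨t, ?_⟩
      have := congrArg (fun n : ℕ => (n : R)) htu
      push_cast at this
      rw [this, hpR]
      ring
    refine ⟨E, hE0, h.sum _ _ _ fun i _ => h.iter hHε i, htr0, hTtr, wt, ?_, ?_⟩
    · intro f
      have h3 := hTj 1
      rw [Function.iterate_one] at h3
      rw [h3]
      refine ⟨-(T f - f), ?_⟩
      push_cast
      ring
    · intro j hj hjp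
      obtain ⟨t, ht⟩ := hcast j hj hjp
      rw [← sub_ne_zero, hTj]
      constructor
      · rw [neg_ne_zero]
        refine mul_ne_zero (fun h0 => ?_) htr0
        rw [h0, zero_mul] at ht
        exact zero_ne_one ht
      · have h3 := hTj 1
        rw [Function.iterate_one] at h3
        rw [h3]
        refine ⟨t * tr, ?_⟩
        push_cast
        linear_combination tr ^ 2 * ht

end Pool.Agent.N864.RQ
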